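import Pool.Agent.helper11.RPQ.SpecU
import Pool.Agent.helper79.MS.SCH

/-!
# Row rpq:UNF (MP_07c750_an, project RPQ): unfolding
-/

set_option autoImplicit false

open scoped MatrixGroups ContDiff Topology UpperHalfPlane ComplexConjugate
open UpperHalfPlane MeasureTheory Filter Set

namespace Pool.Agent.RPQ

open Pool.Agent.RS
open Pool.Agent.MS (BA BB st pf gk Dk amk)

theorem UNF_pk {r : ℝ} {c : ℍ → ℂ} (hc : TB (1 / 4) c) : Continuous (pk r c) ∧ HasCompactSupport (pk r c) := by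
  refine ⟨?_, ((Pool.Agent.RS.A_FL0).2.1 _ r c hc).2⟩
  have h3 := (Pool.Agent.RS.A_FL0).1 (1 / 4) c hc
  have h4 := h3.2.2.2.2.2.2
  have h5 : Continuous (fun z : ℍ => ((z.im : ℝ) : ℂ) ^ ((1 / 2 : ℂ) + (r : ℂ) * Complex.I)) := by
    refine Continuous.cpow (Complex.continuous_ofReal.comp UpperHalfPlane.continuous_im) continuous_const fun z => ?_
    exact Or.inl (by rw [Complex.ofReal_re]; exact z.im_pos)
  exact h4.mul h5

theorem UNF_proof (hCWB : CWB_stmt) : UNF_stmt := by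
  intro Γ F α β η R κ V v hΓ hF hα hβ hη hR hV hv hvb hvi
  obtain ⟨m, hm⟩ := hvb
  have hR0 : 0 < R := by linarith
  have hl0 : 0 < R ^ (-η) := Real.rpow_pos_of_pos hR0 _
  have hl1 : R ^ (-η) ≤ 1 := Real.rpow_le_one_of_one_le_of_nonpos hR (by linarith)
  have hw00 : 0 < w0 R := Real.rpow_pos_of_pos hR0 _
  have hw01 : w0 R ≤ 1 := Real.rpow_le_one_of_one_le_of_nonpos hR (by norm_num)
  have hw10 : 0 < w1 R := Real.rpow_pos_of_pos hR0 _
  have hw11 : w1 R ≤ 1 := Real.rpow_le_one_of_one_le_of_nonpos hR (by norm_num)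
  have hT0 : TB (1 / 4) (cw β α (w0 R) (R ^ (-η))) := (hCWB α β _ _ hα hβ hw00 hw01 hl0 hl1).2.2.2.2.2.2.1
  have hT1 : TB (1 / 4) (cw β α (w1 R) (R ^ (-η))) := (hCWB α β _ _ hα hβ hw10 hw11 hl0 hl1).2.2.2.2.2.2.1
  obtain ⟨hc0, hs0⟩ := UNF_pk (r := R) hT0
  obtain ⟨hc1, hs1⟩ := UNF_pk (r := R) hT1
  have hf : Continuous (fun z => conj (pk R (cw β α (w0 R) (R ^ (-η))) z)) := Complex.continuous_conj.comp hc0
  have hfc : HasCompactSupport (fun z => conj (pk R (cw β α (w0 R) (R ^ (-η))) z)) :=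
    hs0.comp_left (g := fun z : ℂ => conj z) (map_zero _)
  refine ⟨fun g => ?_, fun φ hφ => ?_⟩
  · have hinv : Measure.IsMulLeftInvariant mG := ⟨fun g => Pool.Agent.RS.A_GLI g⟩
    unfold QQ
    rw [Pool.Agent.MS.SCH_W A_GLC A_GMG A_GLI A_GPE Γ F hΓ hF _ _ hf hfc hc1 hs1 v hv m hm hvi]
    rw [← integral_const_mul, ← integral_const_mul]
    rw [← integral_mul_left_eq_self (fun h : SL(2, ℝ) => stK V κ (tau R) (uk β α η R) g h * v h) (g * aM (tau R))]
    refine integral_congr_ae (Eventually.of_forall fun k => ?_)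
    show stK V κ (tau R) (uk β α η R) g (g * aM (tau R) * k) * v (g * aM (tau R) * k) = _
    unfold stK uk gk
    rw [inv_mul_cancel_left]
    ring
  · have hφb : InvC Γ (fun z => conj (φ z)) := by
      refine ⟨Complex.continuous_conj.comp hφ.1, fun γ z => ?_⟩
      show conj (φ (γ • z)) = conj (φ z)
      rw [hφ.2]
    have h1 := (A_GDU Γ F (fun z => conj (pk R (cw β α (w0 R) (R ^ (-η))) z)) ((∫ z : ℍ, ‖conj (pk R (cw β α (w0 R) (R ^ (-η))) z)‖) ^ 2) hΓ hF hf hfc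
      (sq_nonneg _) (fun u hu => A_GYN Γ F _ u hΓ hF hf hfc hu) v v hv hv ⟨m, hm⟩ ⟨m, hm⟩).2.1 _ hφb
    rw [h1]
    refine integral_congr_ae (Eventually.of_forall fun g => ?_)
    show v g * Wf (fun z => conj (pk R (cw β α (w0 R) (R ^ (-η))) z)) (fun z => conj (φ z)) g = v g * conj (QQ β α (w0 R) (R ^ (-η)) R φ g)
    unfold QQ
    rw [(A_GWB Γ _ φ hΓ hc0 hs0 hφ).2.2 g]

end Pool.Agent.RPQ
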