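import Pool.Agent.helper11.RPQ.SpecT
import Pool.Agent.helper79.MS.SCH

/-!
# Row rpq:VSP (MP_07c750_an, project RPQ): freezing the potential
-/

set_option autoImplicit false

open scoped MatrixGroups ContDiff Topology UpperHalfPlane ComplexConjugate ENNReal
open UpperHalfPlane MeasureTheory Filter Set

namespace Pool.Agent.RPQ

open Pool.Agent.RS
open Pool.Agent.MS (BA BB st pf gk Dk amk)

/-- the difference of the mollifiers -/
noncomputable def VSP_m (κ : ℝ → ℝ) (ρ : ℝ) (z w' : ℍ) : ℝ := mo κ ρ (QU.tt z w') - mo κ ρ (QU.tt I w')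

theorem VSP_pk {r : ℝ} {c : ℍ → ℂ} (hc : TB (1 / 4) c) : Continuous (pk r c) ∧ HasCompactSupport (pk r c) := by
  refine ⟨?_, ((Pool.Agent.RS.A_FL0).2.1 _ r c hc).2⟩
  have h3 := (Pool.Agent.RS.A_FL0).1 (1 / 4) c hc
  have h4 := h3.2.2.2.2.2.2
  have h5 : Continuous (fun z : ℍ => ((z.im : ℝ) : ℂ) ^ ((1 / 2 : ℂ) + (r : ℂ) * Complex.I)) := by
    refine Continuous.cpow (Complex.continuous_ofReal.comp UpperHalfPlane.continuous_im) continuous_const fun z => ?_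
    exact Or.inl (by rw [Complex.ofReal_re]; exact z.im_pos)
  exact h4.mul h5

theorem VSP_mc {κ : ℝ → ℝ} {ρ : ℝ} (hκ : QU.RK (mo κ ρ)) : Continuous (fun p : ℍ × ℍ => VSP_m κ ρ p.1 p.2) := by
  have h1 : Continuous (mo κ ρ) := hκ.1.continuous
  have h2 : Continuous (fun p : ℍ × ℍ => QU.tt p.1 p.2) := (QU.A_TTT).2.2.2.2.1
  have h3 : Continuous (fun p : ℍ × ℍ => QU.tt I p.2) := h2.comp (continuous_const.prodMk continuous_snd)
  exact (h1.comp h2).sub (h1.comp h3)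

/-- the integrand is integrable -/
theorem VSP_i {κ : ℝ → ℝ} {ρ : ℝ} (hκ : QU.RK (mo κ ρ)) (z : ℍ) (f : ℍ → ℝ) (hf : Continuous f) :
    Integrable (fun w' : ℍ => mo κ ρ (QU.tt z w') * f w') := by
  have h1 : Continuous (mo κ ρ) := hκ.1.continuous
  have h2 : Continuous (fun p : ℍ × ℍ => QU.tt p.1 p.2) := (QU.A_TTT).2.2.2.2.1
  have h3 : Continuous (fun w' : ℍ => QU.tt z w') := h2.comp (continuous_const.prodMk continuous_id)
  have h4 : HasCompactSupport (fun w' : ℍ => mo κ ρ (QU.tt z w')) := by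
    have h5 := (QU.A_LAK).2.2.1 (mo κ ρ) z hκ
    have h6 : (fun w' : ℍ => mo κ ρ (QU.tt z w')) = fun w' : ℍ => mo κ ρ (QU.tt w' z) := by
      funext w'
      rw [(QU.A_TTT).2.2.1]
    rw [h6]; exact h5
  exact ((h1.comp h3).mul hf).integrable_of_hasCompactSupport h4.mul_right

/-- the difference of the potentials -/
theorem VSP_d {κ : ℝ → ℝ} {ρ : ℝ} (hκ : QU.RK (mo κ ρ)) (V V0 : ℍ → ℝ) (hV0 : Continuous V0) (hV : ∀ z, V z = QU.conv (mo κ ρ) V0 z)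
    (g : SL(2, ℝ)) (z : ℍ) : V (g • z) - V (g • I) = ∫ w' : ℍ, VSP_m κ ρ z w' * V0 (g • w') := by
  have hc : Continuous (fun w : ℍ => V0 (g • w)) := hV0.comp (continuous_const_smul g)
  have h1 := fun z : ℍ => (QU.A_CVB ℝ).1 (mo κ ρ) V0 g z
  rw [hV, hV, ← h1 z, ← h1 I]
  show (∫ w' : ℍ, mo κ ρ (QU.tt z w') * V0 (g • w')) - ∫ w' : ℍ, mo κ ρ (QU.tt I w') * V0 (g • w') = _
  rw [← integral_sub (VSP_i hκ z _ hc) (VSP_i hκ I _ hc)]
  refine integral_congr_ae (Eventually.of_forall fun w' => ?_)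
  show mo κ ρ (QU.tt z w') * V0 (g • w') - mo κ ρ (QU.tt I w') * V0 (g • w') = VSP_m κ ρ z w' * V0 (g • w')
  unfold VSP_m
  ring

theorem VSP_pkm (r : ℝ) (c : ℍ → ℂ) (κ : ℝ → ℝ) (ρ : ℝ) (w' z : ℍ) :
    pk r (fun z => c z * ((VSP_m κ ρ z w' : ℝ) : ℂ)) z = pk r c z * ((VSP_m κ ρ z w' : ℝ) : ℂ) := by
  unfold pk
  ring

/-- the main identity -/
theorem VSP_id {κ : ℝ → ℝ} {ρ R : ℝ} (hκ : QU.RK (mo κ ρ)) (V V0 : ℍ → ℝ) (hV0 : Continuous V0) (hV : ∀ z, V z = QU.conv (mo κ ρ) V0 z)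
    (c : ℍ → ℂ) (hc : TB (1 / 4) c) (hm : ∀ w' : ℍ, 1 < dist I w' → ∀ z, c z * ((VSP_m κ ρ z w' : ℝ) : ℂ) = 0) (φ : ℍ → ℂ) (hφ : Continuous φ)
    (g : SL(2, ℝ)) : Wf (pk R c) (fun z => ((V z : ℝ) : ℂ) * φ z) g - ((V (g • I) : ℝ) : ℂ) * Wf (pk R c) φ g =
      ∫ w' : ℍ, ((V0 (g • w') : ℝ) : ℂ) * Wf (pk R (fun z => c z * ((VSP_m κ ρ z w' : ℝ) : ℂ))) φ g := by
  obtain ⟨hP, hPs⟩ := VSP_pk (r := R) hc
  have hVc : Continuous V := by
    have h1 : V = QU.conv (mo κ ρ) V0 := funext hV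
    rw [h1]
    exact (QU.A_CVB ℝ).2.2.2.2.2.1 (mo κ ρ) V0 hκ hV0
  have hgc : Continuous (fun z : ℍ => g • z) := continuous_const_smul g
  have i1 : Integrable (fun z : ℍ => pk R c z * (((V (g • z) : ℝ) : ℂ) * φ (g • z))) :=
    (hP.mul ((Complex.continuous_ofReal.comp (hVc.comp hgc)).mul (hφ.comp hgc))).integrable_of_hasCompactSupport hPs.mul_right
  have i2 : Integrable (fun z : ℍ => pk R c z * φ (g • z)) :=
    (hP.mul (hφ.comp hgc)).integrable_of_hasCompactSupport hPs.mul_right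
  have e1 : Wf (pk R c) (fun z => ((V z : ℝ) : ℂ) * φ z) g - ((V (g • I) : ℝ) : ℂ) * Wf (pk R c) φ g =
      ∫ z : ℍ, ∫ w' : ℍ, pk R c z * ((VSP_m κ ρ z w' : ℝ) : ℂ) * ((V0 (g • w') : ℝ) : ℂ) * φ (g • z) := by
    unfold Wf
    rw [← integral_const_mul, ← integral_sub i1 (i2.const_mul _)]
    refine integral_congr_ae (Eventually.of_forall fun z => ?_)
    show pk R c z * (((V (g • z) : ℝ) : ℂ) * φ (g • z)) - ((V (g • I) : ℝ) : ℂ) * (pk R c z * φ (g • z)) = _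
    have e2 : ((V (g • z) : ℝ) : ℂ) - ((V (g • I) : ℝ) : ℂ) = ∫ w' : ℍ, ((VSP_m κ ρ z w' : ℝ) : ℂ) * ((V0 (g • w') : ℝ) : ℂ) := by
      rw [← Complex.ofReal_sub, VSP_d hκ V V0 hV0 hV g z, ← integral_complex_ofReal]
      refine integral_congr_ae (Eventually.of_forall fun w' => ?_)
      show (((VSP_m κ ρ z w' * V0 (g • w') : ℝ)) : ℂ) = _
      push_cast; ring
    calc pk R c z * (((V (g • z) : ℝ) : ℂ) * φ (g • z)) - ((V (g • I) : ℝ) : ℂ) * (pk R c z * φ (g • z))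
        = (pk R c z * φ (g • z)) * (((V (g • z) : ℝ) : ℂ) - ((V (g • I) : ℝ) : ℂ)) := by ring
      _ = ∫ w' : ℍ, (pk R c z * φ (g • z)) * (((VSP_m κ ρ z w' : ℝ) : ℂ) * ((V0 (g • w') : ℝ) : ℂ)) := by
        rw [e2, integral_const_mul]
      _ = _ := by
        refine integral_congr_ae (Eventually.of_forall fun w' => ?_)
        show (pk R c z * φ (g • z)) * (((VSP_m κ ρ z w' : ℝ) : ℂ) * ((V0 (g • w') : ℝ) : ℂ)) = _
        ring
  rw [e1]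
  have hB : IsCompact (Metric.closedBall I 1 : Set ℍ) := isCompact_closedBall I 1
  have hcont : Continuous (Function.uncurry fun (z w' : ℍ) => pk R c z * ((VSP_m κ ρ z w' : ℝ) : ℂ) * ((V0 (g • w') : ℝ) : ℂ) * φ (g • z)) := by
    refine Continuous.mul (Continuous.mul (Continuous.mul (hP.comp continuous_fst) ?_) ?_) ?_
    · exact Complex.continuous_ofReal.comp (VSP_mc hκ)
    · exact Complex.continuous_ofReal.comp (hV0.comp (hgc.comp continuous_snd))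
    · exact hφ.comp (hgc.comp continuous_fst)
  have hs : HasCompactSupport (Function.uncurry fun (z w' : ℍ) => pk R c z * ((VSP_m κ ρ z w' : ℝ) : ℂ) * ((V0 (g • w') : ℝ) : ℂ) * φ (g • z)) := by
    refine HasCompactSupport.intro (IsCompact.prod hPs hB) fun p hp => ?_
    by_contra h
    have h1 : pk R c p.1 * ((VSP_m κ ρ p.1 p.2 : ℝ) : ℂ) ≠ 0 := left_ne_zero_of_mul (left_ne_zero_of_mul h)
    have h2 : pk R c p.1 ≠ 0 := left_ne_zero_of_mul h1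
    refine hp ⟨subset_tsupport _ h2, ?_⟩
    by_contra h3
    have h4 : 1 < dist I p.2 := by
      rw [Metric.mem_closedBall, dist_comm] at h3
      exact not_le.1 h3
    have h5 := hm p.2 h4 p.1
    have h6 : pk R c p.1 * ((VSP_m κ ρ p.1 p.2 : ℝ) : ℂ) = (c p.1 * ((VSP_m κ ρ p.1 p.2 : ℝ) : ℂ)) * ((p.1.im : ℝ) : ℂ) ^ ((1 / 2 : ℂ) + (R : ℂ) * Complex.I) := by
      unfold pk; ring
    rw [h6, h5, zero_mul] at h1
    exact h1 rfl
  have hint : Integrable (Function.uncurry fun (z w' : ℍ) => pk R c z * ((VSP_m κ ρ z w' : ℝ) : ℂ) * ((V0 (g • w') : ℝ) : ℂ) * φ (g • z))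
      ((volume : Measure ℍ).prod (volume : Measure ℍ)) := hcont.integrable_of_hasCompactSupport hs
  rw [integral_integral_swap hint]
  refine integral_congr_ae (Eventually.of_forall fun w' => ?_)
  show ∫ z : ℍ, pk R c z * ((VSP_m κ ρ z w' : ℝ) : ℂ) * ((V0 (g • w') : ℝ) : ℂ) * φ (g • z) =
    ((V0 (g • w') : ℝ) : ℂ) * ∫ z : ℍ, pk R (fun z => c z * ((VSP_m κ ρ z w' : ℝ) : ℂ)) z * φ (g • z)
  rw [← integral_const_mul]
  refine integral_congr_ae (Eventually.of_forall fun z => ?_)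
  show pk R c z * ((VSP_m κ ρ z w' : ℝ) : ℂ) * ((V0 (g • w') : ℝ) : ℂ) * φ (g • z) = ((V0 (g • w') : ℝ) : ℂ) * (pk R (fun z => c z * ((VSP_m κ ρ z w' : ℝ) : ℂ)) z * φ (g • z))
  rw [VSP_pkm]
  ring

/-- joint measurability -/
theorem VSP_meas {κ : ℝ → ℝ} {ρ R : ℝ} (hκ : QU.RK (mo κ ρ)) (c : ℍ → ℂ) (hc : TB (1 / 4) c) (φ : ℍ → ℂ) (hφ : Continuous φ) :
    Measurable (fun p : SL(2, ℝ) × ℍ => Wf (pk R (fun z => c z * ((VSP_m κ ρ z p.2 : ℝ) : ℂ))) φ p.1) := by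
  have hsc : SecondCountableTopology SL(2, ℝ) := (A_GLC).2.1
  obtain ⟨hP, hPs⟩ := VSP_pk (r := R) hc
  have h1 : Continuous (fun q : (SL(2, ℝ) × ℍ) × ℍ => pk R c q.2 * ((VSP_m κ ρ q.2 q.1.2 : ℝ) : ℂ) * φ (q.1.1 • q.2)) := by
    refine ((hP.comp continuous_snd).mul (Complex.continuous_ofReal.comp ((VSP_mc hκ).comp (continuous_snd.prodMk (continuous_snd.comp continuous_fst))))).mul ?_
    exact hφ.comp ((continuous_fst.comp continuous_fst).smul continuous_snd)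
  have h2 := (h1.stronglyMeasurable).integral_prod_right' (ν := (volume : Measure ℍ))
  have h3 : (fun p : SL(2, ℝ) × ℍ => Wf (pk R (fun z => c z * ((VSP_m κ ρ z p.2 : ℝ) : ℂ))) φ p.1) =
      fun p : SL(2, ℝ) × ℍ => ∫ z : ℍ, pk R c z * ((VSP_m κ ρ z p.2 : ℝ) : ℂ) * φ (p.1 • z) := by
    funext p
    unfold Wf
    refine integral_congr_ae (Eventually.of_forall fun z => ?_)
    show pk R (fun z => c z * ((VSP_m κ ρ z p.2 : ℝ) : ℂ)) z * φ (p.1 • z) = _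
    rw [VSP_pkm]
  rw [h3]
  exact h2.measurable

/-- the estimate -/
theorem VSP_est (Γ : Subgroup SL(2, ℝ)) (F : Set ℍ) (hΓ : QU.SurfaceGroup Γ) (hF : QU.NiceDom Γ F) {κ : ℝ → ℝ} {ρ R : ℝ} (hκ : QU.RK (mo κ ρ))
    (V V0 : ℍ → ℝ) (C0 : ℝ) (hC0 : 0 ≤ C0) (hV0 : Continuous V0) (hV0b : ∀ z, |V0 z| ≤ C0) (hV : ∀ z, V z = QU.conv (mo κ ρ) V0 z)
    (c : ℍ → ℂ) (hc : TB (1 / 4) c) (hcm : ∀ w' : ℍ, TB (1 / 4) (fun z => c z * ((VSP_m κ ρ z w' : ℝ) : ℂ)))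
    (hm : ∀ w' : ℍ, 1 < dist I w' → ∀ z, c z * ((VSP_m κ ρ z w' : ℝ) : ℂ) = 0) (φ : ℍ → ℂ) (hφ : InvC Γ φ) (M : ℝ) (hM : 0 ≤ M)
    (hq : ∀ w' : ℍ, qn F (fun z => c z * ((VSP_m κ ρ z w' : ℝ) : ℂ)) R φ ≤ M) :
    iR F (fun g => ‖Wf (pk R c) (fun z => ((V z : ℝ) : ℂ) * φ z) g - ((V (g • I) : ℝ) : ℂ) * Wf (pk R c) φ g‖ ^ 2) ≤
      C0 ^ 2 * (volume (Metric.closedBall (I : ℍ) 1)).toReal ^ 2 * M := by
  have hsc : SecondCountableTopology SL(2, ℝ) := (A_GLC).2.1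
  have hsf : SigmaFinite mG := (A_GMG).2.2.1
  obtain ⟨⟨hdm, -, hdf, -⟩, -⟩ := A_GFD Γ F hΓ hF
  have hfin : IsFiniteMeasure (mG.restrict (dG F)) := ⟨by rw [Measure.restrict_apply_univ]; exact hdf⟩
  set W : SL(2, ℝ) → ℍ → ℂ := fun g w' => Wf (pk R (fun z => c z * ((VSP_m κ ρ z w' : ℝ) : ℂ))) φ g with hW
  have hWm : Measurable (fun p : SL(2, ℝ) × ℍ => W p.1 p.2) := VSP_meas hκ c hc φ hφ.1
  set Bl : Set ℍ := Metric.closedBall (I : ℍ) 1 with hBl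
  have hBlm : MeasurableSet Bl := Metric.isClosed_closedBall.measurableSet
  have hBlf : volume Bl < ⊤ := (isCompact_closedBall (I : ℍ) 1).measure_lt_top
  have hW0 : ∀ g w', W g w' ≠ 0 → w' ∈ Bl := by
    intro g w' h
    by_contra h1
    have h2 : 1 < dist I w' := by
      rw [hBl, Metric.mem_closedBall, dist_comm] at h1
      exact not_le.1 h1
    refine h ?_
    show Wf (pk R (fun z => c z * ((VSP_m κ ρ z w' : ℝ) : ℂ))) φ g = 0
    unfold Wf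
    have h3 : ∀ z : ℍ, pk R (fun z => c z * ((VSP_m κ ρ z w' : ℝ) : ℂ)) z * φ (g • z) = 0 := by
      intro z
      show (c z * ((VSP_m κ ρ z w' : ℝ) : ℂ)) * ((z.im : ℝ) : ℂ) ^ ((1 / 2 : ℂ) + (R : ℂ) * Complex.I) * φ (g • z) = 0
      rw [hm w' h2 z, zero_mul, zero_mul]
    simp only [h3, integral_zero]
  -- pointwise bound
  have hpt : ∀ g : SL(2, ℝ), ENNReal.ofReal (‖Wf (pk R c) (fun z => ((V z : ℝ) : ℂ) * φ z) g - ((V (g • I) : ℝ) : ℂ) * Wf (pk R c) φ g‖ ^ 2) ≤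
      ENNReal.ofReal C0 ^ 2 * (volume Bl * ∫⁻ w' in Bl, ‖W g w'‖ₑ ^ 2) := by
    intro g
    rw [VSP_id hκ V V0 hV0 hV c hc hm φ hφ.1 g, ENNReal.ofReal_pow (norm_nonneg _), ofReal_norm]
    have h1 : ‖∫ w' : ℍ, ((V0 (g • w') : ℝ) : ℂ) * W g w'‖ₑ ≤ ENNReal.ofReal C0 * ∫⁻ w' : ℍ, ‖W g w'‖ₑ := by
      refine (enorm_integral_le_lintegral_enorm _).trans ?_
      have hmm : Measurable (fun w' : ℍ => ‖W g w'‖ₑ) := (hWm.comp (measurable_const.prodMk measurable_id)).enorm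
      rw [← lintegral_const_mul _ hmm]
      refine lintegral_mono fun w' => ?_
      show ‖((V0 (g • w') : ℝ) : ℂ) * W g w'‖ₑ ≤ ENNReal.ofReal C0 * ‖W g w'‖ₑ
      rw [enorm_mul]
      refine mul_le_mul_left ?_ _
      rw [← ofReal_norm, Complex.norm_real]
      exact ENNReal.ofReal_le_ofReal (hV0b _)
    have hmg : Measurable (fun w' : ℍ => ‖W g w'‖ₑ) := (hWm.comp (measurable_const.prodMk measurable_id)).enorm
    have h2 := Pool.Agent.MS.SCH_cs (volume : Measure ℍ) (a := fun w' => ‖W g w'‖ₑ) (b := fun _ => (1 : ℝ≥0∞)) hBlm hmg measurable_const (by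
      intro w' h
      refine hW0 g w' fun h0 => h ?_
      show ‖W g w'‖ₑ = 0
      rw [h0, enorm_zero])
    simp only [mul_one] at h2
    have h3 : ∫⁻ x in Bl, (1 : ℝ≥0∞) = volume Bl := by
      rw [lintegral_const, one_mul, Measure.restrict_apply_univ]
    have h4 : ∫⁻ w' : ℍ, ‖W g w'‖ₑ ^ 2 = ∫⁻ w' in Bl, ‖W g w'‖ₑ ^ 2 := by
      rw [← lintegral_indicator hBlm]
      refine lintegral_congr fun w' => ?_
      by_cases hw : w' ∈ Bl
      · rw [indicator_of_mem hw]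
      · rw [indicator_of_notMem hw]
        have h0 : W g w' = 0 := by
          by_contra h
          exact hw (hW0 g w' h)
        rw [h0, enorm_zero]
        simp
    rw [h3, h4] at h2
    calc ‖∫ w' : ℍ, ((V0 (g • w') : ℝ) : ℂ) * W g w'‖ₑ ^ 2 ≤ (ENNReal.ofReal C0 * ∫⁻ w' : ℍ, ‖W g w'‖ₑ) ^ 2 := by gcongr
      _ = ENNReal.ofReal C0 ^ 2 * (∫⁻ w' : ℍ, ‖W g w'‖ₑ) ^ 2 := by rw [mul_pow]
      _ ≤ ENNReal.ofReal C0 ^ 2 * (volume Bl * ∫⁻ w' in Bl, ‖W g w'‖ₑ ^ 2) := by gcongr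
  -- the inner integrals
  have hin : ∀ w' : ℍ, ∫⁻ g in dG F, ‖W g w'‖ₑ ^ 2 ∂mG ≤ ENNReal.ofReal M := by
    intro w'
    have hI : InvG Γ (fun g => W g w') := by
      obtain ⟨h1, h2⟩ := VSP_pk (r := R) (hcm w')
      exact (A_GWB Γ _ φ hΓ h1 h2 hφ).1
    obtain ⟨m, hm'⟩ := (A_GBD Γ ℂ _ hΓ hI).1
    have hint : Integrable (fun g => ‖W g w'‖ ^ 2) (mG.restrict (dG F)) := by
      refine Integrable.of_bound (hI.1.norm.pow 2).aestronglyMeasurable (m ^ 2) (Eventually.of_forall fun g => ?_)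
      rw [Real.norm_eq_abs, abs_of_nonneg (by positivity)]
      exact pow_le_pow_left₀ (norm_nonneg _) (hm' g) 2
    have e2 := ofReal_integral_eq_lintegral_ofReal hint (Eventually.of_forall fun g => by positivity)
    have e3 : ∫⁻ g in dG F, ‖W g w'‖ₑ ^ 2 ∂mG = ENNReal.ofReal (∫ g in dG F, ‖W g w'‖ ^ 2 ∂mG) := by
      rw [e2]
      refine lintegral_congr fun g => ?_
      rw [ENNReal.ofReal_pow (norm_nonneg _), ofReal_norm]
    rw [e3]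
    exact ENNReal.ofReal_le_ofReal (hq w')
  -- conclusion
  have hfin2 : ∫⁻ g in dG F, ENNReal.ofReal (‖Wf (pk R c) (fun z => ((V z : ℝ) : ℂ) * φ z) g - ((V (g • I) : ℝ) : ℂ) * Wf (pk R c) φ g‖ ^ 2) ∂mG ≤
      ENNReal.ofReal (C0 ^ 2 * (volume Bl).toReal ^ 2 * M) := by
    have hm1 : Measurable (fun p : SL(2, ℝ) × ℍ => ‖W p.1 p.2‖ₑ ^ 2) := hWm.enorm.pow_const 2
    have hm2 : Measurable (fun g : SL(2, ℝ) => ∫⁻ w' in Bl, ‖W g w'‖ₑ ^ 2) := hm1.lintegral_prod_right'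
    calc ∫⁻ g in dG F, ENNReal.ofReal (‖Wf (pk R c) (fun z => ((V z : ℝ) : ℂ) * φ z) g - ((V (g • I) : ℝ) : ℂ) * Wf (pk R c) φ g‖ ^ 2) ∂mG
        ≤ ∫⁻ g in dG F, ENNReal.ofReal C0 ^ 2 * (volume Bl * ∫⁻ w' in Bl, ‖W g w'‖ₑ ^ 2) ∂mG := lintegral_mono fun g => hpt g
      _ = ENNReal.ofReal C0 ^ 2 * (volume Bl * ∫⁻ g in dG F, ∫⁻ w' in Bl, ‖W g w'‖ₑ ^ 2 ∂volume ∂mG) := by
        rw [lintegral_const_mul _ (hm2.const_mul _), lintegral_const_mul _ hm2]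
      _ = ENNReal.ofReal C0 ^ 2 * (volume Bl * ∫⁻ w' in Bl, ∫⁻ g in dG F, ‖W g w'‖ₑ ^ 2 ∂mG) := by
        rw [lintegral_lintegral_swap hm1.aemeasurable]
      _ ≤ ENNReal.ofReal C0 ^ 2 * (volume Bl * ∫⁻ w' in Bl, ENNReal.ofReal M) := by
        gcongr with w'
        exact hin w'
      _ = ENNReal.ofReal C0 ^ 2 * (volume Bl * (ENNReal.ofReal M * volume Bl)) := by
        rw [lintegral_const, Measure.restrict_apply_univ]
      _ = ENNReal.ofReal (C0 ^ 2 * (volume Bl).toReal ^ 2 * M) := by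
        rw [ENNReal.ofReal_mul (by positivity), ENNReal.ofReal_mul (by positivity), ENNReal.ofReal_pow hC0, ENNReal.ofReal_pow ENNReal.toReal_nonneg,
          ENNReal.ofReal_toReal hBlf.ne]
        ring
  have hR0 : 0 ≤ C0 ^ 2 * (volume Bl).toReal ^ 2 * M := by positivity
  by_cases hI : Integrable (fun g => ‖Wf (pk R c) (fun z => ((V z : ℝ) : ℂ) * φ z) g - ((V (g • I) : ℝ) : ℂ) * Wf (pk R c) φ g‖ ^ 2) (mG.restrict (dG F))
  · have e1 := ofReal_integral_eq_lintegral_ofReal hI (Eventually.of_forall fun g => by positivity)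
    rw [← e1] at hfin2
    exact (ENNReal.ofReal_le_ofReal_iff hR0).1 hfin2
  · unfold iR
    rw [integral_undef hI]
    exact hR0

theorem VSP_proof (hMOA : MOA_stmt) (hMOM : MOM_stmt) (hGFB : GFB_stmt) (hACC : ACC_stmt) (hACM : ACM_stmt) (hCWB : CWB_stmt) : VSP_stmt := by
  intro Γ F α β κ C0 η hΓ hF hα hβ hκ hC0 hη hη1
  obtain ⟨CM, hCM, hMO⟩ := hMOA κ 8 hκ
  obtain ⟨CA, hCA, hAC⟩ := hACC 8 α β hα hβ
  obtain ⟨CG, hCG, hGF⟩ := hGFB
  set v := (volume (Metric.closedBall (I : ℍ) 1)).toReal with hv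
  have hv0 : 0 ≤ v := ENNReal.toReal_nonneg
  refine ⟨C0 ^ 2 * v ^ 2 * (CG * (CM * CA) ^ 2) + 1, (4 : ℝ) ^ (1 / η), by positivity, Real.one_le_rpow (by norm_num) (by positivity), ?_⟩
  intro R w ρ V φ hR hw1 hw0 hρ hρ1 hV hφ
  have h4 : (1 : ℝ) ≤ (4 : ℝ) ^ (1 / η) := Real.one_le_rpow (by norm_num) (by positivity)
  have hR1 : 1 ≤ R := h4.trans hR
  have hR0 : 0 < R := by linarith
  set L : ℝ := R ^ (-η) with hL
  have hL0 : 0 < L := Real.rpow_pos_of_pos hR0 _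
  have hL1 : L ≤ 1 := Real.rpow_le_one_of_one_le_of_nonpos hR1 (by linarith)
  have hL4 : L ≤ 1 / 4 := by
    have h5 : ((4 : ℝ) ^ (1 / η)) ^ η = 4 := by
      rw [← Real.rpow_mul (by norm_num), one_div, inv_mul_cancel₀ hη.ne', Real.rpow_one]
    have h6 : (4 : ℝ) ≤ R ^ η := by
      rw [← h5]
      exact Real.rpow_le_rpow (by positivity) hR hη.le
    rw [hL, Real.rpow_neg hR0.le]
    rw [one_div]
    exact inv_anti₀ (by norm_num) h6
  have hw00 : 0 < w := lt_of_lt_of_le (Real.rpow_pos_of_pos hR0 _) hw1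
  have hwL : w ≤ L := hw0.trans (Real.rpow_le_rpow_of_exponent_le hR1 (by linarith))
  have hw11 : w ≤ 1 := hwL.trans hL1
  have hρ0 : 0 < ρ := lt_of_lt_of_le (Real.rpow_pos_of_pos hR0 _) hρ
  have hLρ : L ≤ ρ := (Real.rpow_le_rpow_of_exponent_le hR1 (by linarith)).trans hρ
  have hρ16 : R ^ (-(2 * η)) ≤ ρ ^ (2 * 8) := by
    have h5 : (R ^ (-(η / 8))) ^ (2 * 8) = R ^ (-(2 * η)) := by
      rw [← Real.rpow_natCast, ← Real.rpow_mul hR0.le]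
      congr 1
      push_cast
      ring
    rw [← h5]
    exact pow_le_pow_left₀ (Real.rpow_nonneg hR0.le _) hρ _
  have hwρ : w ≤ L * ρ ^ (2 * 8) := by
    have h5 : L * R ^ (-(2 * η)) = R ^ (-(3 * η)) := by
      rw [hL, ← Real.rpow_add hR0]
      congr 1
      ring
    have h6 : w ≤ R ^ (-(3 * η)) := hw0.trans (Real.rpow_le_rpow_of_exponent_le hR1 (by linarith))
    rw [← h5] at h6
    exact h6.trans (mul_le_mul_of_nonneg_left hρ16 hL0.le)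
  have hwR : R ^ (-(1 / 2) : ℝ) ≤ w := (Real.rpow_le_rpow_of_exponent_le hR1 (by norm_num)).trans hw1
  set c := cw β α w L with hc
  have hTB : TB (1 / 4) c := (hCWB α β w L hα hβ hw00 hw11 hL0 hL1).2.2.2.2.2.2.1
  have hACc : AC 8 (CA * (w ^ (-(1 / 2) : ℝ) / L)) (1 / w) w L c := (hAC w L hw00 hwL hL1).1
  have hA0 : 0 ≤ CA * (w ^ (-(1 / 2) : ℝ) / L) := by positivity
  have hmo := fun w' : ℍ => hMO (CA * (w ^ (-(1 / 2) : ℝ) / L)) w L ρ c w' hA0 hw00 hLρ hρ1 hwρ hACc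
  have hρ4 : 0 < ρ ^ (-4 : ℝ) := Real.rpow_pos_of_pos hρ0 _
  set A' : ℝ := CM * (CA * (w ^ (-(1 / 2) : ℝ) / L)) * (L * ρ ^ (-4 : ℝ)) with hA'
  have hA'0 : 0 ≤ A' := by positivity
  obtain ⟨V0, hV0, hV0b, hVe⟩ := hV
  have hRK : QU.RK (mo κ ρ) := (hMOM.2 κ hκ ρ hρ0).1
  have hnn : 0 ≤ nn F φ := integral_nonneg fun z => by positivity
  have hM : A' ^ 2 * w * L ^ 2 / R ≤ (CM * CA) ^ 2 * (R ^ (-η) / R) := by
    have e1 : A' = CM * CA * (w ^ (-(1 / 2) : ℝ) * ρ ^ (-4 : ℝ)) := by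
      rw [hA']
      field_simp
    have e2 : (w ^ (-(1 / 2) : ℝ)) ^ 2 * w = 1 := by
      rw [← Real.rpow_natCast, ← Real.rpow_mul hw00.le]
      have : (-(1 / 2) : ℝ) * ((2 : ℕ) : ℝ) = -1 := by norm_num
      rw [this, Real.rpow_neg_one, inv_mul_cancel₀ hw00.ne']
    have e3 : (ρ ^ (-4 : ℝ)) ^ 2 ≤ R ^ η := by
      have e4 : (ρ ^ (-4 : ℝ)) ^ 2 = ρ ^ (-8 : ℝ) := by
        rw [← Real.rpow_natCast, ← Real.rpow_mul hρ0.le]
        norm_num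
      have e5 : (R ^ (-(η / 8))) ^ (-8 : ℝ) = R ^ η := by
        rw [← Real.rpow_mul hR0.le]
        congr 1
        ring
      rw [e4, ← e5]
      exact Real.rpow_le_rpow_of_nonpos (Real.rpow_pos_of_pos hR0 _) hρ (by norm_num)
    have e6 : R ^ η * L ^ 2 = R ^ (-η) := by
      rw [hL, ← Real.rpow_natCast, ← Real.rpow_mul hR0.le, ← Real.rpow_add hR0]
      congr 1
      push_cast
      ring
    have e7 : A' ^ 2 * w * L ^ 2 / R = (CM * CA) ^ 2 * (((w ^ (-(1 / 2) : ℝ)) ^ 2 * w) * ((ρ ^ (-4 : ℝ)) ^ 2 * L ^ 2)) / R := by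
      rw [e1]; ring
    rw [e7, e2, one_mul, mul_div_assoc]
    refine mul_le_mul_of_nonneg_left ?_ (sq_nonneg _)
    refine div_le_div_of_nonneg_right ?_ hR0.le
    calc (ρ ^ (-4 : ℝ)) ^ 2 * L ^ 2 ≤ R ^ η * L ^ 2 := mul_le_mul_of_nonneg_right e3 (sq_nonneg _)
      _ = R ^ (-η) := e6
  have hest := VSP_est Γ F hΓ hF (R := R) hRK V V0 C0 hC0 hV0.1 hV0b hVe c hTB
    (fun w' => hACM.2.2 8 A' (1 / w) w L _ (hwL.trans hL4) hL4 (hmo w').1)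
    (fun w' h z => by
      rcases (hmo w').2 with h1 | h1
      · exact h1 z
      · exfalso
        linarith)
    φ hφ (CG * ((CM * CA) ^ 2 * (R ^ (-η) / R)) * nn F φ) (by positivity)
    (fun w' => by
      refine (hGF Γ F R w L A' _ hΓ hF hR1 hwR hwL hL4 hA'0 (hmo w').1 φ hφ).trans ?_
      refine mul_le_mul_of_nonneg_right ?_ hnn
      exact mul_le_mul_of_nonneg_left hM hCG.le)
  unfold QQ
  refine hest.trans ?_
  have h9 : 0 ≤ R ^ (-η) / R * nn F φ := by positivity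
  calc C0 ^ 2 * v ^ 2 * (CG * ((CM * CA) ^ 2 * (R ^ (-η) / R)) * nn F φ) = (C0 ^ 2 * v ^ 2 * (CG * (CM * CA) ^ 2)) * (R ^ (-η) / R * nn F φ) := by ring
    _ ≤ (C0 ^ 2 * v ^ 2 * (CG * (CM * CA) ^ 2) + 1) * (R ^ (-η) / R * nn F φ) := by
      refine mul_le_mul_of_nonneg_right (by linarith) h9
    _ = _ := by ring

end Pool.Agent.RPQ
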